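import Pool.Agent.Helper4.HD.Goals

/-!
# Project SQ, lower half of Haiman, Dunkl block, packet COM: the Dunkl operators commute
-/

set_option autoImplicit false

namespace Pool.Agent.Helper66.HD

noncomputable section

open MvPolynomial Finset Pool.Agent.Helper4.HD

variable {n : ℕ}

lemma dk_sw (h : S_REL) (σ : Equiv.Perm (Fin n)) (i : Fin n) (f : P n) :
    Dk (σ i) (sw σ f) = sw σ (Dk i f) := ((h n i f).2.2.1 σ).symm

lemma dk_sw_fix (h : S_REL) (i j k : Fin n) (hj : i ≠ j) (hk : i ≠ k) (f : P n) :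
    Dk i (sw (Equiv.swap j k) f) = sw (Equiv.swap j k) (Dk i f) := by
  have h1 := dk_sw h (Equiv.swap j k) i f
  rw [Equiv.swap_apply_of_ne_of_ne hj hk] at h1
  exact h1

lemma dk_sw_left (h : S_REL) (i j : Fin n) (f : P n) :
    Dk i (sw (Equiv.swap i j) f) = sw (Equiv.swap i j) (Dk j f) := by
  have h1 := dk_sw h (Equiv.swap i j) j f
  rw [Equiv.swap_apply_right] at h1
  exact h1

lemma dk_sw_right (h : S_REL) (i j : Fin n) (f : P n) :
    Dk j (sw (Equiv.swap i j) f) = sw (Equiv.swap i j) (Dk i f) := by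
  have h1 := dk_sw h (Equiv.swap i j) i f
  rw [Equiv.swap_apply_left] at h1
  exact h1

lemma sum_dk (h : S_REL) (i j : Fin n) (hij : i ≠ j) (f : P n) :
    ∑ l ∈ univ.erase j, Dk i (sw (Equiv.swap j l) f) =
      ∑ l ∈ univ.erase j, sw (Equiv.swap j l) (Dk i f)
        + (sw (Equiv.swap i j) (Dk j f) - sw (Equiv.swap i j) (Dk i f)) := by
  have h1 : ∀ l ∈ univ.erase j, Dk i (sw (Equiv.swap j l) f) = sw (Equiv.swap j l) (Dk i f) +
      (if l = i then (sw (Equiv.swap i j) (Dk j f) - sw (Equiv.swap i j) (Dk i f)) else 0) := by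
    intro l hl
    by_cases hli : l = i
    · subst hli
      rw [if_pos rfl, Equiv.swap_comm j l, dk_sw_left h]
      ring
    · rw [if_neg hli, add_zero]
      exact dk_sw_fix h i j l hij (Ne.symm hli) f
  rw [sum_congr rfl h1, sum_add_distrib, sum_ite_eq', if_pos (mem_erase.2 ⟨hij, mem_univ _⟩)]

/-- the commutator -/
def KK (i j : Fin n) (f : P n) : P n := Dk i (Dk j f) - Dk j (Dk i f)

lemma KK_ne (h : S_REL) (i j k : Fin n) (hki : k ≠ i) (hkj : k ≠ j)
    (f : P n) : KK i j (X k * f) = X k * KK i j f := by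
  unfold KK
  rw [(h n j f).2.1 k (Ne.symm hkj), (h n i f).2.1 k (Ne.symm hki), map_add, map_add, map_smul,
    map_smul, (h n i (Dk j f)).2.1 k (Ne.symm hki), (h n j (Dk i f)).2.1 k (Ne.symm hkj)]
  by_cases hij : i = j
  · subst hij
    ring
  · rw [dk_sw_fix h i j k hij (Ne.symm hki) f, dk_sw_fix h j i k (Ne.symm hij) (Ne.symm hkj) f]
    ring

lemma KK_right (h : S_REL) (i j : Fin n) (hij : i ≠ j) (f : P n) :
    KK i j (X j * f) = X j * KK i j f := by
  unfold KK
  rw [(h n j f).1, (h n i f).2.1 j hij, map_sub, map_add, map_add, map_smul, map_smul, map_sum,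
    (h n i (Dk j f)).2.1 j hij, (h n j (Dk i f)).1, sum_dk h i j hij f, dk_sw_right h i j f]
  rw [smul_add, smul_sub]
  ring

lemma KK_swap (i j : Fin n) (f : P n) : KK i j f = - KK j i f := by
  unfold KK
  ring

lemma KK_zero (h : S_REL) (i j : Fin n) (f : P n) : KK i j f = 0 := by
  by_cases hij : i = j
  · subst hij
    unfold KK
    exact sub_self _
  induction f using MvPolynomial.induction_on with
  | C a =>
    unfold KK
    rw [(h n j 0).2.2.2.2.1 a, (h n i 0).2.2.2.2.1 a, map_zero, map_zero, sub_zero]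
  | add p q hp hq =>
    have h1 : KK i j (p + q) = KK i j p + KK i j q := by
      unfold KK
      rw [map_add, map_add, map_add, map_add]
      ring
    rw [h1, hp, hq, add_zero]
  | mul_X p k hp =>
    rw [mul_comm]
    by_cases hki : k = i
    · subst hki
      rw [KK_swap, KK_right h j k (Ne.symm hij), ← mul_neg, ← KK_swap, hp, mul_zero]
    · by_cases hkj : k = j
      · subst hkj
        rw [KK_right h i k hij, hp, mul_zero]
      · rw [KK_ne h i j k hki hkj, hp, mul_zero]

lemma com1 (h : S_REL) (i j : Fin n) (f : P n) : Dk i (Dk j f) = Dk j (Dk i f) := by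
  have h0 := KK_zero h i j f
  unfold KK at h0
  exact sub_eq_zero.1 h0

lemma com2 (h : S_REL) (i : Fin n) (f : P n) : dtot n (Dk i f) = Dk i (dtot n f) := by
  rw [← (h n i (Dk i f)).2.2.2.1, ← (h n i f).2.2.2.1, map_sum]
  exact sum_congr rfl (fun k _ => com1 h k i f)

lemma Tk_app (i : Fin n) (f : P n) : Tk i f = Dk i f - ((1 : ℂ) / n) • dtot n f := rfl

lemma com3 (h : S_REL) (i j : Fin n) (f : P n) : Tk i (Tk j f) = Dk i (Dk j f) -
    ((1 : ℂ) / n) • Dk i (dtot n f) - ((1 : ℂ) / n) • (Dk j (dtot n f) -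
      ((1 : ℂ) / n) • dtot n (dtot n f)) := by
  rw [Tk_app i, Tk_app j, map_sub, map_sub, map_smul, map_smul, com2 h]

theorem com (h : S_REL) : S_COM := by
  intro n i j f
  refine ⟨com1 h i j f, com2 h i f, ?_⟩
  rw [com3 h i j f, com3 h j i f, com1 h i j f, smul_sub, smul_sub]
  abel

end

end Pool.Agent.Helper66.HD
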