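import Pool.Agent.Helper44.HD.GoalsC

/-!
# The core statement (packet HD-QZ)
-/

set_option autoImplicit false

open Finset
open scoped TensorProduct

namespace Pool.Agent.Helper66.HD

open Pool.Agent.Helper44.HD

section real

variable {k G : Type} [Field k] [Group G] {D : RedGroup k G}
variable {R : Type} [Ring R] [Algebra k R] [MulSemiringAction G R] [SMulCommClass G k R]
variable {v w : Type} [Fintype v] [DecidableEq v] [Fintype w] [DecidableEq w]

/-- right multiplication `Hom(V, W) → Hom(U, W)` by `B ∈ Hom(U, V)` -/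
def rmu {u : Type} [Fintype u] [DecidableEq u] {U : MRep D u} {V : MRep D v} (W : MRep D w)
    {B : Matrix v u R} (hB : B ∈ Hm R U V) : Hm R V W →ₗ[EE R W] Hm R U W where
  toFun A := ⟨A.1 * B, Hm_mul A.2 hB⟩
  map_add' A A' := Subtype.ext (Matrix.add_mul A.1 A'.1 B)
  map_smul' c A := Subtype.ext (Matrix.mul_assoc c.1 A.1 B)

/-- `Hom(W, W)` is `E(W)` -/
def hmE (W : MRep D w) : Hm R W W →ₗ[EE R W] (Unit → EE R W) where
  toFun A := fun _ => ⟨A.1, A.2⟩
  map_add' A A' := rfl
  map_smul' c A := rfl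

/-- `E(W)` is `Hom(W, W)` -/
def eHm (W : MRep D w) : (Unit → EE R W) →ₗ[EE R W] Hm R W W where
  toFun C := ⟨(C ()).1, (C ()).2⟩
  map_add' A A' := rfl
  map_smul' c A := rfl

end real

theorem qz (hQB : StmtQB) (hQM : StmtQM) (hQP : StmtQP) (hQD : StmtQD) : StmtQZ := by
  intro k G R v _ _ _ _ _ _ _ D _ _ V hRat hProp hNoeth hFin
  obtain ⟨hfin, X, hX⟩ := hQB k G R v D V hRat
  obtain ⟨d, hd⟩ := hFin (BM R V) hfin
  have hd' : CategoryTheory.HasProjectiveDimensionLT (ModuleCat.of (Gam k R) (BM R V)) (d + 1) :=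
    CategoryTheory.hasProjectiveDimensionLT_of_ge _ d (d + 1) (Nat.le_succ d)
  obtain ⟨o, io, jo, Ω, hΩ⟩ := hQD k G R v D V hRat hProp hNoeth d (BM R V) X hfin hd'
  refine ⟨o, io, jo, Ω, ?_⟩
  intro w _ _ W hret r n φ hφ
  obtain ⟨e, he⟩ := hQM k G R v w D V W X hX
  obtain ⟨_, hproj⟩ := hQP k G R v w D V W r.retr
  have hproj' : Module.Projective (EE R W) (NN V W X) := Module.Projective.of_equiv e.symm
  have hCZ := hΩ w W hret hproj'
  have hba : r.b.map (algebraMap k R) * r.a.map (algebraMap k R) = 1 := by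
    rw [← Matrix.map_mul, r.ba, Matrix.map_one _ (map_zero _) (map_one _)]
  let i : NN V W X →ₗ[EE R W] (Unit → EE R W) :=
    hmE W ∘ₗ rmu W (map_mem_Hm (R := R) r.hb) ∘ₗ e.toLinearMap
  let p : (Unit → EE R W) →ₗ[EE R W] NN V W X :=
    e.symm.toLinearMap ∘ₗ rmu W (map_mem_Hm (R := R) r.ha) ∘ₗ eHm W
  have hpi : ∀ x, p (i x) = x := by
    intro x
    change e.symm _ = x
    rw [LinearEquiv.symm_apply_eq]
    apply Subtype.ext
    change ((e x).1 * r.b.map (algebraMap k R)) * r.a.map (algebraMap k R) = (e x).1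
    rw [Matrix.mul_assoc, hba, Matrix.mul_one]
  have h := hCZ Unit i p hpi n φ hφ
  refine h.congr ?_
  intro x
  unfold TF tc
  rw [Fintype.sum_unique]
  congr 1
  funext j
  apply Subtype.ext
  have h1 : e (p (Pi.single () (1 : EE R W))) =
      ⟨r.a.map (algebraMap k R), map_mem_Hm (R := R) r.ha⟩ := by
    change e (e.symm _) = _
    rw [LinearEquiv.apply_symm_apply]
    apply Subtype.ext
    change ((Pi.single () (1 : EE R W) : Unit → EE R W) ()).1 * r.a.map (algebraMap k R) = _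
    rw [Pi.single_eq_same]
    exact Matrix.one_mul _
  change (r.emb (x j)).1 = (e ((NA V W X).r (x j) (p (Pi.single () (1 : EE R W))))).1 *
    r.b.map (algebraMap k R)
  rw [he, h1, RetD.emb_apply]
  rfl

end Pool.Agent.Helper66.HD
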